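import Pool.Agent.H14.AVS.S3

/-!
# Module APX of board avs: approximation of matrices over the completion
-/

set_option autoImplicit false

namespace Pool.AVS

open Polynomial Matrix Pool.AVR

namespace APX

section

variable {L : Type} [Field L] {O : ValuationSubring L} {π : L}

theorem pi_inv (h : Loc L O π) : π⁻¹ ∉ O := by
  have := (h.unif π h.pi_mem h.pi_ne).2
  rw [div_self h.pi_ne] at this
  exact this O.one_mem

theorem exists_pow (h : Loc L O π) (x : L) : ∃ m : ℕ, ∀ k : ℕ, m ≤ k → π ^ k * x ∈ O := by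
  by_cases hx : x = 0
  · exact ⟨0, fun k _ => by rw [hx, mul_zero]; exact O.zero_mem⟩
  obtain ⟨n, hn, _⟩ := h.arch x hx
  refine ⟨n.natAbs, fun k hk => ?_⟩
  have hkn : 0 ≤ (k : ℤ) + n := by omega
  obtain ⟨l, hl⟩ := Int.eq_ofNat_of_zero_le hkn
  have e : π ^ k * x = π ^ l * (x / π ^ n) := by
    have h0 := h.pi_ne
    have h1 : (π ^ l : L) = π ^ k * π ^ n := by
      rw [← zpow_natCast, ← zpow_natCast, ← zpow_add₀ h0, hl]
    rw [h1]
    field_simp
  rw [e]
  exact O.mul_mem _ _ (pow_mem h.pi_mem l) hn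

theorem isUnit_one_sub (h : Loc L O π) (y : O) : IsUnit (1 - ⟨π, h.pi_mem⟩ * y : O) := by
  have hc : ((1 - ⟨π, h.pi_mem⟩ * y : O) : L) = 1 - π * (y : L) := rfl
  have h0 : (1 - π * (y : L)) ≠ 0 := by
    intro h1
    have h2 : π⁻¹ = (y : L) := by
      have h0 := h.pi_ne
      field_simp
      linear_combination h1
    exact pi_inv h (h2 ▸ y.2)
  have h3 : (1 - π * (y : L))⁻¹ ∈ O := by
    by_contra h4
    have h5 := (h.unif _ (1 - ⟨π, h.pi_mem⟩ * y : O).2 h0).1 h4
    apply pi_inv h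
    have h6 : π⁻¹ = (1 - π * (y : L)) / π + y := by
      have h0 := h.pi_ne
      field_simp
      ring
    rw [h6]
    exact O.add_mem _ _ h5 y.2
  refine ⟨⟨1 - ⟨π, h.pi_mem⟩ * y, ⟨_, h3⟩, ?_, ?_⟩, rfl⟩
  · apply Subtype.ext
    exact mul_inv_cancel₀ h0
  · apply Subtype.ext
    exact inv_mul_cancel₀ h0

theorem det_one_sub {R : Type} [CommRing R] (π : R) (M : Matrix (Fin 3) (Fin 3) R) :
    (1 - π • M).det = 1 - π * (M.trace - π * (M 0 0 * M 1 1 - M 0 1 * M 1 0 + M 0 0 * M 2 2 -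
      M 0 2 * M 2 0 + M 1 1 * M 2 2 - M 1 2 * M 2 1) + π ^ 2 * M.det) := by
  simp only [Matrix.det_fin_three, Matrix.trace_fin_three, Matrix.sub_apply, Matrix.smul_apply,
    Matrix.one_apply, smul_eq_mul]
  simp
  ring

end

end APX

open APX in
theorem apx_thm : APXStmt := by
  intro F _ I ϖ L _ O ι hC g hg
  have hL := hC.loc
  set π : L := ι ϖ with hπ
  have hgu : IsUnit g.det := isUnit_iff_ne_zero.2 hg
  choose m hm using fun i j => exists_pow hL (g⁻¹ i j)
  set k : ℕ := ∑ i, ∑ j, m i j with hk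
  have hmk : ∀ i j, m i j ≤ k := fun i j =>
    (Finset.single_le_sum (f := fun j => m i j) (fun _ _ => Nat.zero_le _)
      (Finset.mem_univ j)).trans
      (Finset.single_le_sum (f := fun i => ∑ j, m i j) (fun _ _ => Nat.zero_le _)
        (Finset.mem_univ i))
  choose x hx using fun i j => hC.dense (g i j) (k + 1)
  have hπ0 : π ≠ 0 := hL.pi_ne
  -- the error, divided by `π ^ (k + 1)`
  set E : Matrix (Fin 3) (Fin 3) O := Matrix.of fun i j => ⟨_, hx i j⟩ with hE
  set H : Matrix (Fin 3) (Fin 3) O := Matrix.of fun i j => ⟨_, hm i j k (hmk i j)⟩ with hH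
  set p : O := ⟨π, hL.pi_mem⟩ with hp
  set κ' : Matrix (Fin 3) (Fin 3) O := 1 - p • (H * E) with hκ'
  have hdet : IsUnit κ'.det := by
    rw [hκ', det_one_sub]
    exact isUnit_one_sub hL _
  set φ : O →+* L := O.subtype with hφ
  have hEg : g - (Matrix.of x).map ι = (π ^ (k + 1)) • E.map φ := by
    refine Matrix.ext fun i j => ?_
    have : φ (E i j) = (g i j - ι (x i j)) / π ^ (k + 1) := rfl
    rw [Matrix.smul_apply, Matrix.map_apply, this, Matrix.sub_apply, Matrix.map_apply,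
      Matrix.of_apply, smul_eq_mul]
    field_simp
  have hHg : H.map φ = (π ^ k) • g⁻¹ := by
    refine Matrix.ext fun i j => ?_
    rfl
  have hmain : g * κ'.map φ = (Matrix.of x).map ι := by
    have e1 : κ'.map φ = 1 - π • (H.map φ * E.map φ) := by
      rw [← Matrix.map_mul]
      refine Matrix.ext fun i j => ?_
      simp only [hκ', Matrix.map_apply, Matrix.sub_apply, Matrix.smul_apply, Matrix.one_apply,
        map_sub, smul_eq_mul, map_mul]
      split_ifs <;> simp [hφ, hp]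
    rw [e1, hHg, Matrix.smul_mul, smul_smul, ← pow_succ', mul_sub, mul_one, Matrix.mul_smul,
      ← mul_assoc, Matrix.mul_nonsing_inv _ hgu, one_mul, ← hEg]
    abel
  have hκκ : κ'.map φ * (κ'⁻¹).map φ = 1 := by
    rw [← Matrix.map_mul, Matrix.mul_nonsing_inv _ hdet]
    simp
  refine ⟨Matrix.of x, (κ'⁻¹).map φ, ?_, ⟨?_, ?_⟩, ?_⟩
  · intro h0
    have h1 : ((Matrix.of x).map ι).det = 0 := by
      have := RingHom.map_det ι (Matrix.of x)
      rw [h0, map_zero] at this
      exact this.symm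
    rw [← hmain, Matrix.det_mul] at h1
    have h2 : (κ'.map φ).det ≠ 0 := by
      have h3 := congrArg Matrix.det hκκ
      rw [Matrix.det_mul, Matrix.det_one] at h3
      exact left_ne_zero_of_mul_eq_one h3
    exact mul_ne_zero hg h2 h1
  · intro i j
    exact (κ'⁻¹ i j).2
  · have hd : ((κ'⁻¹).map φ).det = ((κ'⁻¹).det : L) := (RingHom.map_det φ κ'⁻¹).symm
    have hd' : (κ'.map φ).det = (κ'.det : L) := (RingHom.map_det φ κ').symm
    have h3 := congrArg Matrix.det hκκ
    rw [Matrix.det_mul, Matrix.det_one] at h3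
    refine ⟨?_, ?_, ?_⟩
    · exact right_ne_zero_of_mul_eq_one h3
    · rw [hd]; exact ((κ'⁻¹).det).2
    · have : (((κ'⁻¹).map φ).det)⁻¹ = (κ'.map φ).det := inv_eq_of_mul_eq_one_left h3
      rw [this, hd']
      exact (κ'.det).2
  · rw [← hmain, mul_assoc, hκκ, mul_one]

end Pool.AVS
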