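import Pool.Agent.H14.AVS.S4

/-!
# Module BDN of board avs: few symmetric matrices have a discriminant divisible by a high power
-/

set_option autoImplicit false

namespace Pool.AVS

open Polynomial Matrix Pool.AVR

namespace BDN

theorem finite_adjoinRoot (F : Type) [Field F] [Finite F] (Q : F[X]) (hQ : Q.Monic) :
    Finite (AdjoinRoot Q) := by
  have : Module.Finite F (AdjoinRoot Q) := hQ.finite_adjoinRoot
  exact Module.finite_of_finite F

theorem card_adjoinRoot (F : Type) [Field F] [Finite F] (Q : F[X]) (hQ : Q.Monic) :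
    Nat.card (AdjoinRoot Q) = Nat.card F ^ Q.natDegree := by
  have : Module.Finite F (AdjoinRoot Q) := hQ.finite_adjoinRoot
  rw [Module.natCard_eq_pow_finrank (K := F)]
  congr 1
  rw [(AdjoinRoot.powerBasis' hQ).finrank, AdjoinRoot.powerBasis'_dim]

theorem pow_dvd_mul {F : Type} [Field F] {P : F[X]} (hP : Prime P) {s t : ℕ} {a b : F[X]}
    (h : P ^ (s + t) ∣ a * b) : P ^ s ∣ a ∨ P ^ t ∣ b := by
  by_contra hc
  rw [not_or] at hc
  obtain ⟨h1, h2⟩ := hc
  rw [← emultiplicity_lt_iff_not_dvd] at h1 h2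
  rw [pow_dvd_iff_le_emultiplicity, emultiplicity_mul hP] at h
  obtain ⟨i, hi⟩ := ENat.ne_top_iff_exists.1 (ne_top_of_lt h1)
  obtain ⟨j, hj⟩ := ENat.ne_top_iff_exists.1 (ne_top_of_lt h2)
  rw [← hi] at h1 h
  rw [← hj] at h2 h
  norm_cast at h1 h2 h
  omega

section ring

variable {F : Type} [Field F] {P : F[X]} {N : ℕ}

/-- The class of `P`. -/
noncomputable def pp (P : F[X]) (N : ℕ) : AdjoinRoot (P ^ N) := AdjoinRoot.mk (P ^ N) P

theorem pp_dvd_iff {s : ℕ} (hs : s ≤ N) (a : F[X]) :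
    pp P N ^ s ∣ AdjoinRoot.mk (P ^ N) a ↔ P ^ s ∣ a := by
  constructor
  · rintro ⟨c, hc⟩
    obtain ⟨c, rfl⟩ := AdjoinRoot.mk_surjective c
    rw [pp, ← map_pow, ← map_mul, ← sub_eq_zero, ← map_sub, AdjoinRoot.mk_eq_zero] at hc
    have h1 : P ^ s ∣ a - P ^ s * c := (pow_dvd_pow P hs).trans hc
    have h2 := dvd_add h1 (dvd_mul_right (P ^ s) c)
    rwa [sub_add_cancel] at h2
  · rintro ⟨c, rfl⟩
    exact ⟨AdjoinRoot.mk _ c, by rw [pp, map_mul, map_pow]⟩

theorem not_dvd_mul (hP : Prime P) {s t : ℕ} (hst : s + t ≤ N) {x y : AdjoinRoot (P ^ N)}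
    (hx : ¬ pp P N ^ s ∣ x) (hy : ¬ pp P N ^ t ∣ y) : ¬ pp P N ^ (s + t) ∣ x * y := by
  obtain ⟨a, rfl⟩ := AdjoinRoot.mk_surjective x
  obtain ⟨b, rfl⟩ := AdjoinRoot.mk_surjective y
  rw [pp_dvd_iff (by omega)] at hx hy
  rw [← map_mul, pp_dvd_iff hst]
  intro h
  rcases pow_dvd_mul hP h with h | h
  · exact hx h
  · exact hy h

/-- Number of multiples of `P ^ s`. -/
theorem card_dvd [Finite F] (hP : P.Monic) {s : ℕ} (hs : s ≤ N) :
    {z : AdjoinRoot (P ^ N) | pp P N ^ s ∣ z}.ncard ≤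
      Nat.card F ^ ((N - s) * P.natDegree) := by
  have := finite_adjoinRoot F (P ^ (N - s)) (hP.pow _)
  have := finite_adjoinRoot F (P ^ N) (hP.pow _)
  have hc := card_adjoinRoot F (P ^ (N - s)) (hP.pow _)
  rw [hP.natDegree_pow] at hc
  rw [← hc, ← Set.ncard_univ]
  let l : AdjoinRoot (P ^ (N - s)) → F[X] := Function.surjInv AdjoinRoot.mk_surjective
  have hl : ∀ x, AdjoinRoot.mk (P ^ (N - s)) (l x) = x :=
    Function.surjInv_eq AdjoinRoot.mk_surjective
  refine (Set.ncard_le_ncard ?_ (Set.toFinite _)).trans (Set.ncard_image_le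
    (f := fun x : AdjoinRoot (P ^ (N - s)) => AdjoinRoot.mk (P ^ N) (P ^ s * l x))
    (Set.toFinite _))
  rintro z ⟨w, rfl⟩
  obtain ⟨r, rfl⟩ := AdjoinRoot.mk_surjective w
  refine ⟨AdjoinRoot.mk (P ^ (N - s)) r, trivial, ?_⟩
  show AdjoinRoot.mk (P ^ N) (P ^ s * l _) = _
  have h1 : P ^ (N - s) ∣ l (AdjoinRoot.mk (P ^ (N - s)) r) - r := by
    rw [← AdjoinRoot.mk_eq_zero, map_sub, hl, sub_self]
  rw [pp, ← map_pow, ← map_mul, ← sub_eq_zero, ← map_sub, AdjoinRoot.mk_eq_zero, ← mul_sub]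
  have h2 : P ^ N = P ^ s * P ^ (N - s) := by rw [← pow_add]; congr 1; omega
  rw [h2]
  exact mul_dvd_mul_left _ h1

end ring

theorem vand {R : Type} [CommRing R] {u v w z y0 y1 y2 y3 : R}
    (h0 : u * y0 ^ 3 + v * y0 ^ 2 + w * y0 + z = 0) (h1 : u * y1 ^ 3 + v * y1 ^ 2 + w * y1 + z = 0)
    (h2 : u * y2 ^ 3 + v * y2 ^ 2 + w * y2 + z = 0)
    (h3 : u * y3 ^ 3 + v * y3 ^ 2 + w * y3 + z = 0) :
    u * ((y1 - y0) * (y2 - y0) * (y3 - y0) * (y2 - y1) * (y3 - y1) * (y3 - y2)) = 0 := by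
  linear_combination (y1 - y2) * (y1 - y3) * (y2 - y3) * h0 -
    (y0 - y2) * (y0 - y3) * (y2 - y3) * h1 + (y0 - y1) * (y0 - y3) * (y1 - y3) * h2 -
    (y0 - y1) * (y0 - y2) * (y1 - y2) * h3

open Classical in
theorem card_le {R : Type} (r : R → R → Prop) (Y : Finset R) (D : ℕ)
    (hD : ∀ y, (Y.filter fun z => r y z).card ≤ D)
    (h4 : ∀ y0 ∈ Y, ∀ y1 ∈ Y, ∀ y2 ∈ Y, ∀ y3 ∈ Y,
      r y0 y1 ∨ r y0 y2 ∨ r y0 y3 ∨ r y1 y2 ∨ r y1 y3 ∨ r y2 y3) : Y.card ≤ 3 * D := by
  by_cases e0 : ∃ y0, y0 ∈ Y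
  swap
  · have : Y = ∅ := Finset.eq_empty_of_forall_notMem (not_exists.1 e0)
    rw [this]; simp
  obtain ⟨y0, m0⟩ := e0
  by_cases e1 : ∃ y1, y1 ∈ Y ∧ ¬ r y0 y1
  swap
  · have hs : Y ⊆ Y.filter fun z => r y0 z := by
      intro z hz
      rw [Finset.mem_filter]
      exact ⟨hz, by_contra fun h => e1 ⟨z, hz, h⟩⟩
    have := (Finset.card_le_card hs).trans (hD y0)
    omega
  obtain ⟨y1, m1, n1⟩ := e1
  by_cases e2 : ∃ y2, y2 ∈ Y ∧ ¬ r y0 y2 ∧ ¬ r y1 y2
  swap
  · have hs : Y ⊆ (Y.filter fun z => r y0 z) ∪ (Y.filter fun z => r y1 z) := by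
      intro z hz
      rw [Finset.mem_union, Finset.mem_filter, Finset.mem_filter]
      by_contra h
      rw [not_or] at h
      exact e2 ⟨z, hz, fun h' => h.1 ⟨hz, h'⟩, fun h' => h.2 ⟨hz, h'⟩⟩
    have := (Finset.card_le_card hs).trans (Finset.card_union_le _ _)
    have := hD y0
    have := hD y1
    omega
  obtain ⟨y2, m2, n2, n2'⟩ := e2
  have hs : Y ⊆ (Y.filter fun z => r y0 z) ∪ (Y.filter fun z => r y1 z) ∪
      (Y.filter fun z => r y2 z) := by
    intro z hz
    rw [Finset.mem_union, Finset.mem_union, Finset.mem_filter, Finset.mem_filter,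
      Finset.mem_filter]
    rcases h4 y0 m0 y1 m1 y2 m2 z hz with h | h | h | h | h | h
    · exact absurd h n1
    · exact absurd h n2
    · exact Or.inl (Or.inl ⟨hz, h⟩)
    · exact absurd h n2'
    · exact Or.inl (Or.inr ⟨hz, h⟩)
    · exact Or.inr ⟨hz, h⟩
  have a1 := (Finset.card_le_card hs).trans (Finset.card_union_le _ _)
  have a2 := Finset.card_union_le (Y.filter fun z => r y0 z) (Y.filter fun z => r y1 z)
  have := hD y0
  have := hD y1
  have := hD y2
  omega

open Classical in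
/-- Number of pairs `(x, y)`, if there are few `y` for the good `x`, and few bad `x`. -/
theorem card_pairs {X R : Type} [Fintype X] [Fintype R] (S : Finset (X × R)) (g : X → Prop)
    (D : ℕ) (h1 : ∀ x, g x → (Finset.univ.filter fun y => (x, y) ∈ S).card ≤ 3 * D) (E : ℕ)
    (h2 : (Finset.univ.filter fun x => ¬ g x).card ≤ E) :
    S.card ≤ Fintype.card X * (3 * D) + E * Fintype.card R := by
  have h := Finset.card_eq_sum_card_fiberwise (f := Prod.fst) (s := S) (t := Finset.univ)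
    (fun p _ => Finset.mem_coe.2 (Finset.mem_univ _))
  rw [h]
  have key : ∀ x : X, (S.filter fun p => p.1 = x).card ≤
      3 * D + (if g x then 0 else Fintype.card R) := by
    intro x
    have e : (S.filter fun p => p.1 = x).card ≤
        (Finset.univ.filter fun y => (x, y) ∈ S).card := by
      refine Finset.card_le_card_of_injOn Prod.snd ?_ ?_
      · rintro ⟨a, b⟩ hp
        simp only [Finset.coe_filter, Set.mem_ofPred_eq] at hp ⊢
        obtain ⟨hp, rfl⟩ := hp
        exact ⟨Finset.mem_univ _, hp⟩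
      · rintro ⟨a, b⟩ hp ⟨a', b'⟩ hp' hb
        simp only [Finset.coe_filter, Set.mem_ofPred_eq] at hp hp'
        obtain ⟨_, rfl⟩ := hp
        obtain ⟨_, rfl⟩ := hp'
        simp only at hb
        rw [hb]
    refine e.trans ?_
    by_cases hg : g x
    · rw [if_pos hg]; exact h1 x hg
    · rw [if_neg hg]
      exact ((Finset.card_le_univ _).trans (Nat.le_add_left _ _))
  refine (Finset.sum_le_sum fun x _ => key x).trans ?_
  rw [Finset.sum_add_distrib, Finset.sum_const, Finset.card_univ, smul_eq_mul]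
  refine Nat.add_le_add_left ?_ _
  rw [Finset.sum_ite, Finset.sum_const_zero, zero_add, Finset.sum_const, smul_eq_mul]
  exact Nat.mul_le_mul_right _ h2

/-- The matrix with given entries. -/
def mat {R : Type} (x : R × R × R × R × R) (y : R) : Matrix (Fin 3) (Fin 3) R :=
  !![x.1, x.2.1, x.2.2.1; x.2.1, x.2.2.2.1, x.2.2.2.2; x.2.2.1, x.2.2.2.2, y]

theorem dB_mat {R : Type} [CommRing R] (x : R × R × R × R × R) : ∃ v w z : R, ∀ y,
    dB (mat x y) = 4 * x.1 ^ 3 * y ^ 3 + v * y ^ 2 + w * y + z := by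
  obtain ⟨p, q, r, s, t⟩ := x
  set a : R := -(2 * r + s) with ha
  set b0 : R := 2 * r * s - 2 * t * q + r ^ 2 with hb
  set e : R := p with he
  set g : R := p * s - q ^ 2 with hg
  set c0 : R := -(p * t ^ 2) + 2 * q * r * t - r ^ 2 * s with hc
  refine ⟨a ^ 2 * e ^ 2 - 12 * b0 * e ^ 2 - 18 * a * e * g - 27 * g ^ 2,
    -(2 * a ^ 2 * b0 * e) + 12 * b0 ^ 2 * e - 4 * a ^ 3 * g + 18 * a * (b0 * g - e * c0) -
      54 * c0 * g,
    a ^ 2 * b0 ^ 2 - 4 * b0 ^ 3 - 4 * a ^ 3 * c0 + 18 * a * b0 * c0 - 27 * c0 ^ 2, fun y => ?_⟩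
  have e1 : ia (mat (p, q, r, s, t) y) = a := by simp [ia, mat, ha]
  have e2 : ib (mat (p, q, r, s, t) y) = b0 - y * e := by simp [ib, mat, hb, he]
  have e3 : ic (mat (p, q, r, s, t) y) = c0 + y * g := by
    simp [ic, mat, Matrix.det_fin_three, hc, hg]; ring
  rw [dB, e1, e2, e3, disc]
  simp only
  ring

end BDN

open BDN in
open Classical in
theorem bdn_thm : BDNStmt := by
  intro F _ _ h2 P hP hirr ε hε
  have hprime : Prime P := hirr.prime
  obtain ⟨s, hs⟩ := exists_pow_lt_of_lt_one (y := (1 / 2 : ℝ)) (x := ε / 4) (by positivity)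
    (by norm_num)
  refine ⟨9 * s, fun N hN => ?_⟩
  have hfin := finite_adjoinRoot F (P ^ N) (hP.pow _)
  have hcard := card_adjoinRoot F (P ^ N) (hP.pow _)
  rw [hP.natDegree_pow] at hcard
  let : Fintype (AdjoinRoot (P ^ N)) := Fintype.ofFinite _
  set R := AdjoinRoot (P ^ N) with hR
  set q : ℕ := Nat.card F with hq
  have hq2 : 2 ≤ q := by
    have : Fintype F := Fintype.ofFinite F
    rw [hq, Nat.card_eq_fintype_card]
    exact Fintype.one_lt_card
  have hd : 1 ≤ P.natDegree := hirr.natDegree_pos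
  set D : ℕ := q ^ ((N - s) * P.natDegree) with hD
  have hDle : {z : R | pp P N ^ s ∣ z}.ncard ≤ D := card_dvd hP (by omega)
  have hDle' : ∀ (Y : Finset R), (∀ y ∈ Y, pp P N ^ s ∣ y) → Y.card ≤ D := by
    intro Y hY
    refine le_trans ?_ hDle
    rw [← Set.ncard_coe_finset]
    exact Set.ncard_le_ncard (fun y hy => hY y hy) (Set.toFinite _)
  have h2u : (2 : R) * AdjoinRoot.of (P ^ N) (2 : F)⁻¹ = 1 := by
    have : (2 : R) = AdjoinRoot.of (P ^ N) (2 : F) := (map_ofNat _ 2).symm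
    rw [this, ← map_mul, mul_inv_cancel₀ h2, map_one]
  -- the main count
  set S : Finset ((R × R × R × R × R) × R) :=
    Finset.univ.filter fun p => dB (mat p.1 p.2) = 0 with hS
  have hmain : S.card ≤ Fintype.card (R × R × R × R × R) * (3 * D) +
      (D * Fintype.card R ^ 4) * Fintype.card R := by
    refine card_pairs S (fun x => ¬ pp P N ^ s ∣ x.1) D ?_ _ ?_
    · intro x hx
      obtain ⟨v, w, z, hf⟩ := dB_mat x
      refine card_le (fun y y' => pp P N ^ s ∣ y' - y) _ D ?_ ?_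
      · intro y
        rw [← Finset.card_image_of_injective _ (sub_left_injective (b := y))]
        refine hDle' _ fun z hz => ?_
        rw [Finset.mem_image] at hz
        obtain ⟨w, hw, rfl⟩ := hz
        simp only [Finset.mem_filter] at hw
        exact hw.2
      · intro y0 m0 y1 m1 y2 m2 y3 m3
        have hmem : ∀ y, (x, y) ∈ S → 4 * x.1 ^ 3 * y ^ 3 + v * y ^ 2 + w * y + z = 0 := by
          intro y h1
          rw [hS] at h1
          have h3 := (Finset.mem_filter.1 h1).2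
          rw [← hf]
          exact h3
        simp only [Finset.mem_filter] at m0 m1 m2 m3
        have hv := vand (hmem _ m0.2) (hmem _ m1.2) (hmem _ m2.2) (hmem _ m3.2)
        by_contra hc
        simp only [not_or] at hc
        obtain ⟨c1, c2, c3, c4, c5, c6⟩ := hc
        have k1 := not_dvd_mul hprime (by omega) hx hx
        have k2 := not_dvd_mul hprime (by omega) k1 hx
        have k3 := not_dvd_mul hprime (by omega) k2 c1
        have k4 := not_dvd_mul hprime (by omega) k3 c2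
        have k5 := not_dvd_mul hprime (by omega) k4 c3
        have k6 := not_dvd_mul hprime (by omega) k5 c4
        have k7 := not_dvd_mul hprime (by omega) k6 c5
        have k8 := not_dvd_mul hprime (by omega) k7 c6
        apply k8
        have : x.1 * x.1 * x.1 * (y1 - y0) * (y2 - y0) * (y3 - y0) * (y2 - y1) * (y3 - y1) *
            (y3 - y2) = 0 := by
          linear_combination (AdjoinRoot.of (P ^ N) (2 : F)⁻¹) ^ 2 * hv -
            (2 * AdjoinRoot.of (P ^ N) (2 : F)⁻¹ + 1) * (x.1 * x.1 * x.1 * (y1 - y0) * (y2 - y0) *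
            (y3 - y0) * (y2 - y1) * (y3 - y1) * (y3 - y2)) * h2u
        rw [this]
        exact dvd_zero _
    · refine (Finset.card_le_card (t := (Finset.univ.filter fun z : R => pp P N ^ s ∣ z) ×ˢ
            (Finset.univ : Finset (R × R × R × R))) ?_).trans ?_
      · intro x hx
        simp only [Finset.mem_filter] at hx
        have h1 := not_not.1 hx.2
        exact Finset.mem_product.2 ⟨Finset.mem_filter.2 ⟨Finset.mem_univ _, h1⟩,
          Finset.mem_univ _⟩
      rw [Finset.card_product, Finset.card_univ]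
      refine Nat.mul_le_mul (hDle' _ fun y hy => (Finset.mem_filter.1 hy).2) ?_
      simp only [Fintype.card_prod]
      exact le_of_eq (by ring)
  have hset : {B : Matrix (Fin 3) (Fin 3) R | Bᵀ = B ∧ dB B = 0}.ncard ≤ S.card := by
    rw [← Set.ncard_coe_finset]
    refine Set.ncard_le_ncard_of_injOn
      (fun B => ((B 0 0, B 0 1, B 0 2, B 1 1, B 1 2), B 2 2)) ?_ ?_ (Set.toFinite _)
    · rintro B ⟨hB, hB'⟩
      have e : ∀ i j, B j i = B i j := fun i j => congrFun (congrFun hB i) j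
      have : mat (B 0 0, B 0 1, B 0 2, B 1 1, B 1 2) (B 2 2) = B := by
        refine Matrix.ext fun i j => ?_
        fin_cases i <;> fin_cases j <;> simp [mat, e 0 1, e 0 2, e 1 2]
      rw [Finset.mem_coe, hS, Finset.mem_filter]
      refine ⟨Finset.mem_univ _, ?_⟩
      rw [this]
      exact hB'
    · rintro B ⟨hB, _⟩ B' ⟨hB', _⟩ h
      simp only [Prod.mk.injEq] at h
      obtain ⟨⟨g0, g1, g2, g3, g4⟩, g5⟩ := h
      have e : ∀ i j, B j i = B i j := fun i j => congrFun (congrFun hB i) j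
      have e' : ∀ i j, B' j i = B' i j := fun i j => congrFun (congrFun hB' i) j
      refine Matrix.ext fun i j => ?_
      fin_cases i <;> fin_cases j <;>
        simp [e 0 1, e 0 2, e 1 2, e' 0 1, e' 0 2, e' 1 2, g0, g1, g2, g3, g4, g5]
  have hcR : Fintype.card R = q ^ (N * P.natDegree) := by
    rw [← Nat.card_eq_fintype_card]; exact hcard
  have hfinal : (S.card : ℝ) ≤ 4 * ((q : ℝ) ^ (N * P.natDegree)) ^ 5 * D := by
    have : S.card ≤ 4 * (q ^ (N * P.natDegree)) ^ 5 * D := by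
      refine hmain.trans (le_of_eq ?_)
      simp only [Fintype.card_prod, hcR]
      ring
    exact_mod_cast this
  have hDq : (D : ℝ) * (q : ℝ) ^ (s * P.natDegree) = (q : ℝ) ^ (N * P.natDegree) := by
    rw [hD]
    push_cast
    rw [← pow_add, ← add_mul]
    congr 2
    omega
  have hpow : (2 : ℝ) ^ s ≤ (q : ℝ) ^ (s * P.natDegree) := by
    have h1 : (2 : ℝ) ^ s ≤ (q : ℝ) ^ s := by
      gcongr
      exact_mod_cast hq2
    refine h1.trans (pow_le_pow_right₀ ?_ ?_)
    · have : (2 : ℝ) ≤ q := by exact_mod_cast hq2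
      linarith
    · exact Nat.le_mul_of_pos_right _ hd
  have hD0 : (0 : ℝ) ≤ D := Nat.cast_nonneg _
  set Q : ℝ := (q : ℝ) ^ (N * P.natDegree) with hQ
  have hQ0 : 0 ≤ Q := by positivity
  have h4 : 4 * (D : ℝ) ≤ ε * Q := by
    have h5 : (1 : ℝ) ≤ ε / 4 * 2 ^ s := by
      have : (1 / 2 : ℝ) ^ s * 2 ^ s = 1 := by rw [← mul_pow]; norm_num
      nlinarith [pow_pos (show (0 : ℝ) < 2 by norm_num) s]
    have h6 : (1 : ℝ) ≤ ε / 4 * (q : ℝ) ^ (s * P.natDegree) :=
      h5.trans (mul_le_mul_of_nonneg_left hpow (by positivity))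
    have h7 : (D : ℝ) ≤ ε / 4 * ((D : ℝ) * (q : ℝ) ^ (s * P.natDegree)) := by
      nlinarith
    rw [hDq] at h7
    linarith
  calc (({B : Matrix (Fin 3) (Fin 3) R | Bᵀ = B ∧ dB B = 0}.ncard : ℕ) : ℝ) ≤ S.card := by
        exact_mod_cast hset
    _ ≤ 4 * Q ^ 5 * D := hfinal
    _ = Q ^ 5 * (4 * D) := by ring
    _ ≤ Q ^ 5 * (ε * Q) := mul_le_mul_of_nonneg_left h4 (by positivity)
    _ = ε * Q ^ 6 := by ring
    _ = ε * (q : ℝ) ^ (6 * (N * P.natDegree)) := by
        rw [hQ, ← pow_mul]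
        congr 2
        ring

end Pool.AVS
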